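import Mathlib

set_option autoImplicit false

/-!
# Base change of a finite flat algebra
-/

namespace Pool.Agent.J4H48.AD

open TensorProduct

universe u

theorem bc_generic {P Q F L K : Type u} [CommRing P] [CommRing Q] [Field F] [Field L] [Field K]
    [Algebra P Q] [Algebra P F] [Algebra F L] [Algebra L K] [Algebra Q K] [Algebra P K]
    [Algebra P L] [IsScalarTower P Q K] [IsScalarTower P F L] [IsScalarTower P L K]
    (𝒜 : Type u) [CommRing 𝒜] [Algebra P 𝒜] (n : ℕ)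
    (e : (L ⊗[F] (F ⊗[P] 𝒜)) ≃ₐ[L] (Fin n → L)) :
    Nonempty ((K ⊗[Q] (Q ⊗[P] 𝒜)) ≃ₐ[K] (Fin n → K)) := by
  let e1 : (K ⊗[Q] (Q ⊗[P] 𝒜)) ≃ₐ[K] (K ⊗[P] 𝒜) :=
    Algebra.TensorProduct.cancelBaseChange P Q K K 𝒜
  let e2 : (K ⊗[L] (L ⊗[P] 𝒜)) ≃ₐ[K] (K ⊗[P] 𝒜) :=
    Algebra.TensorProduct.cancelBaseChange P L K K 𝒜
  let e3 : (L ⊗[F] (F ⊗[P] 𝒜)) ≃ₐ[L] (L ⊗[P] 𝒜) :=
    Algebra.TensorProduct.cancelBaseChange P F L L 𝒜
  let e4 : (K ⊗[L] (L ⊗[P] 𝒜)) ≃ₐ[K] (K ⊗[L] (Fin n → L)) :=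
    Algebra.TensorProduct.congr (AlgEquiv.refl (R := K) (A₁ := K)) (e3.symm.trans e)
  let e5 : (K ⊗[L] (Fin n → L)) ≃ₐ[K] (Fin n → K) :=
    Algebra.TensorProduct.piScalarRight L K K (Fin n)
  exact ⟨((e1.trans e2.symm).trans e4).trans e5⟩

theorem bc_all {P Q F L K : Type u} [CommRing P] [CommRing Q] [Field F] [Field L] [Field K]
    [Algebra P F] [Algebra F L] [Algebra Q K] (φ : P →+* Q) (ψ : L →+* K)
    (hφψ : ∀ f, algebraMap Q K (φ f) = ψ (algebraMap F L (algebraMap P F f)))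
    (𝒜 : Type u) [CommRing 𝒜] [Algebra P 𝒜] [Module.Finite P 𝒜] [Module.Flat P 𝒜] (n : ℕ)
    (e : (L ⊗[F] (F ⊗[P] 𝒜)) ≃ₐ[L] (Fin n → L)) :
    ∃ (ℬ : Type u) (_ : CommRing ℬ) (_ : Algebra Q ℬ) (ι : 𝒜 →+* ℬ),
      Module.Finite Q ℬ ∧ Module.Flat Q ℬ ∧
      (∀ p, ι (algebraMap P 𝒜 p) = algebraMap Q ℬ (φ p)) ∧
      (∀ z : ℬ, z ∈ Submodule.span Q (Set.range ι)) ∧
      (∀ (C : Type u) [CommRing C] (f : Q →+* C) (g : 𝒜 →+* C),
        (∀ p, f (φ p) = g (algebraMap P 𝒜 p)) →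
        ∃ h : ℬ →+* C, (∀ q, h (algebraMap Q ℬ q) = f q) ∧ ∀ a, h (ι a) = g a) ∧
      Nonempty ((K ⊗[Q] ℬ) ≃ₐ[K] (Fin n → K)) := by
  let _ : Algebra P Q := φ.toAlgebra
  let _ : Algebra L K := ψ.toAlgebra
  let _ : Algebra P L := ((algebraMap F L).comp (algebraMap P F)).toAlgebra
  let _ : Algebra P K := ((algebraMap Q K).comp φ).toAlgebra
  have : IsScalarTower P Q K := IsScalarTower.of_algebraMap_eq fun _ => rfl
  have : IsScalarTower P F L := IsScalarTower.of_algebraMap_eq fun _ => rfl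
  have : IsScalarTower P L K := IsScalarTower.of_algebraMap_eq fun p => hφψ p
  refine ⟨Q ⊗[P] 𝒜, inferInstance, inferInstance,
    (Algebra.TensorProduct.includeRight : 𝒜 →ₐ[P] Q ⊗[P] 𝒜).toRingHom, inferInstance,
    inferInstance, ?_, ?_, ?_, bc_generic 𝒜 n e⟩
  · intro p
    have h1 : (Algebra.TensorProduct.includeRight : 𝒜 →ₐ[P] Q ⊗[P] 𝒜) (algebraMap P 𝒜 p) =
        algebraMap P (Q ⊗[P] 𝒜) p := AlgHom.commutes _ _
    have h2 : algebraMap P (Q ⊗[P] 𝒜) p = algebraMap Q (Q ⊗[P] 𝒜) (algebraMap P Q p) :=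
      IsScalarTower.algebraMap_apply P Q (Q ⊗[P] 𝒜) p
    exact h1.trans h2
  · intro z
    induction z using TensorProduct.induction_on with
    | zero => exact zero_mem _
    | tmul q a =>
      have : q ⊗ₜ[P] a = q • ((1 : Q) ⊗ₜ[P] a) := by
        rw [TensorProduct.smul_tmul', smul_eq_mul, mul_one]
      rw [this]
      exact Submodule.smul_mem _ _ (Submodule.subset_span ⟨a, rfl⟩)
    | add x y hx hy => exact add_mem hx hy
  · intro C _ f g hfg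
    let _ : Algebra P C := (f.comp φ).toAlgebra
    let f' : Q →ₐ[P] C := { f with commutes' := fun _ => rfl }
    let g' : 𝒜 →ₐ[P] C := { g with commutes' := fun p => (hfg p).symm }
    let h : Q ⊗[P] 𝒜 →ₐ[P] C := Algebra.TensorProduct.lift f' g' fun _ _ => Commute.all _ _
    refine ⟨h.toRingHom, ?_, ?_⟩
    · intro q
      show h (algebraMap Q (Q ⊗[P] 𝒜) q) = f q
      have : algebraMap Q (Q ⊗[P] 𝒜) q = q ⊗ₜ[P] 1 := rfl
      rw [this, Algebra.TensorProduct.lift_tmul, map_one, mul_one]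
      rfl
    · intro a
      show h ((1 : Q) ⊗ₜ[P] a) = g a
      rw [Algebra.TensorProduct.lift_tmul, map_one, one_mul]
      rfl

end Pool.Agent.J4H48.AD
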