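import Pool.Agent.J4H48.AD.Exp

set_option autoImplicit false

/-!
# Finite separable extensions of `k((t))` embed into `k((s))`
-/

namespace Pool.Agent.J4H48.AD

open PowerSeries IsLocalRing

theorem dvr_hom {k O R : Type*} [Field k] [CommRing O] [IsDomain O] (P : Ideal O) [P.IsPrime]
    [CommRing R] [IsDomain R] [IsDiscreteValuationRing R] [Algebra O R]
    [IsLocalization.AtPrime R P] (ι : k →+* O)
    (hι : Function.Surjective ((Ideal.Quotient.mk P).comp ι)) (hPm : P.IsMaximal) :
    ∃ Φ : O →+* k⟦X⟧, Function.Injective Φ ∧ (∀ a, Φ (ι a) = C a) ∧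
      ∀ x ∈ P, constantCoeff (Φ x) = 0 := by
  obtain ⟨π, hπ⟩ := IsDiscreteValuationRing.exists_irreducible R
  have hmax : maximalIdeal R = Ideal.span {π} := hπ.maximalIdeal_eq
  have hres : ∀ x : R, ∃ c : k, x - algebraMap O R (ι c) ∈ maximalIdeal R := by
    intro x
    obtain ⟨y, hy⟩ := (IsLocalization.AtPrime.equivQuotMaximalIdeal P R).surjective
      (Ideal.Quotient.mk _ x)
    obtain ⟨c, hc⟩ := hι y
    refine ⟨c, ?_⟩
    have h1 : Ideal.Quotient.mk (maximalIdeal R) x =
        Ideal.Quotient.mk (maximalIdeal R) (algebraMap O R (ι c)) := by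
      rw [← hy, ← hc]
      rfl
    exact Ideal.Quotient.eq.1 h1
  let _ : Algebra k R := ((algebraMap O R).comp ι).toAlgebra
  have hkR : ∀ a : k, algebraMap k R a = algebraMap O R (ι a) := fun _ => rfl
  have hex : ∀ x : R, ∃ (c : k) (y : R), x = algebraMap k R c + π * y := by
    intro x
    obtain ⟨c, hc⟩ := hres x
    rw [hmax, Ideal.mem_span_singleton] at hc
    obtain ⟨y, hy⟩ := hc
    exact ⟨c, y, by rw [hkR, ← hy]; ring⟩
  have hk : ∀ c : k, π ∣ algebraMap k R c → c = 0 := by
    intro c hc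
    by_contra hc0
    have hu : IsUnit (algebraMap k R c) := (isUnit_iff_ne_zero.2 hc0).map _
    exact hπ.not_isUnit (isUnit_of_dvd_unit hc hu)
  let Φ : R →+* k⟦X⟧ := exHom hπ.ne_zero hex hk
  have hΦinj : Function.Injective Φ := by
    rw [injective_iff_map_eq_zero]
    intro x hx
    by_contra hx0
    obtain ⟨n, u, rfl⟩ := IsDiscreteValuationRing.eq_unit_mul_pow_irreducible hx0 hπ
    have h1 : Φ ((u : R) * π ^ n) = Φ (u : R) * X ^ n := by
      rw [map_mul, map_pow]
      rw [show Φ π = X from exHom_pi hπ.ne_zero hex hk]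
    rw [h1] at hx
    have hu : IsUnit (Φ (u : R)) := u.isUnit.map Φ
    rcases mul_eq_zero.1 hx with h | h
    · exact hu.ne_zero h
    · exact pow_ne_zero n PowerSeries.X_ne_zero h
  refine ⟨Φ.comp (algebraMap O R),
    hΦinj.comp (IsLocalization.injective R P.primeCompl_le_nonZeroDivisors), ?_, ?_⟩
  · intro a
    exact exHom_algebraMap hπ.ne_zero hex hk a
  · intro x hx
    have h1 : algebraMap O R x ∈ maximalIdeal R :=
      (IsLocalization.AtPrime.to_map_mem_maximal_iff R P _).2 hx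
    rw [hmax, Ideal.mem_span_singleton] at h1
    obtain ⟨y, hy⟩ := h1
    have h2 : Φ (algebraMap O R x) = X * Φ y := by
      rw [hy, map_mul, show Φ π = X from exHom_pi hπ.ne_zero hex hk]
    rw [RingHom.comp_apply, h2]
    simp

theorem exists_hom (k L : Type*) [Field k] [IsAlgClosed k] [Field L]
    [Algebra (LaurentSeries k) L] [FiniteDimensional (LaurentSeries k) L]
    [Algebra.IsSeparable (LaurentSeries k) L] :
    ∃ (φ : k⟦X⟧ →+* k⟦X⟧) (ψ : L →+* LaurentSeries k),
      (∀ f, constantCoeff (φ f) = constantCoeff f) ∧ (∀ a : k, φ (C a) = C a) ∧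
      ∀ f, algebraMap k⟦X⟧ (LaurentSeries k) (φ f) =
        ψ (algebraMap (LaurentSeries k) L (algebraMap k⟦X⟧ (LaurentSeries k) f)) := by
  classical
  let _ : Algebra k⟦X⟧ L :=
    ((algebraMap (LaurentSeries k) L).comp (algebraMap k⟦X⟧ (LaurentSeries k))).toAlgebra
  have htow : IsScalarTower k⟦X⟧ (LaurentSeries k) L := IsScalarTower.of_algebraMap_eq fun _ => rfl
  have hded : IsDedekindDomain (integralClosure k⟦X⟧ L) :=
    integralClosure.isDedekindDomain k⟦X⟧ (LaurentSeries k) L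
  have hfrac : IsFractionRing (integralClosure k⟦X⟧ L) L :=
    IsIntegralClosure.isFractionRing_of_finite_extension k⟦X⟧ (LaurentSeries k) L _
  have hint : Algebra.IsIntegral k⟦X⟧ (integralClosure k⟦X⟧ L) :=
    IsIntegralClosure.isIntegral_algebra k⟦X⟧ L
  have hinj0 : Function.Injective (algebraMap k⟦X⟧ (integralClosure k⟦X⟧ L)) := by
    have h1 : Function.Injective (algebraMap k⟦X⟧ L) :=
      (algebraMap (LaurentSeries k) L).injective.comp
        (IsFractionRing.injective k⟦X⟧ (LaurentSeries k))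
    intro x y h
    exact h1 (congrArg Subtype.val h)
  obtain ⟨P, hP, hPc⟩ := Ideal.exists_ideal_over_maximal_of_isIntegral
    (S := integralClosure k⟦X⟧ L) (maximalIdeal k⟦X⟧) (by
      rw [(RingHom.injective_iff_ker_eq_bot _).1 hinj0]; exact bot_le)
  have hPp : P.IsPrime := hP.isPrime
  have hXP : algebraMap k⟦X⟧ (integralClosure k⟦X⟧ L) X ∈ P := by
    have h1 : (X : k⟦X⟧) ∈ maximalIdeal k⟦X⟧ := by
      rw [mem_maximalIdeal, mem_nonunits_iff, PowerSeries.isUnit_iff_constantCoeff]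
      simp
    rw [← hPc] at h1
    exact h1
  have hPb : P ≠ ⊥ := by
    rintro rfl
    rw [Ideal.mem_bot] at hXP
    have := hinj0 (hXP.trans (map_zero _).symm)
    exact PowerSeries.X_ne_zero this
  -- decomposition of power series
  have hdec : ∀ f : k⟦X⟧, ∃ g : k⟦X⟧, f = C (constantCoeff f) + X * g := by
    intro f
    have h1 : (X : k⟦X⟧) ∣ f - C (constantCoeff f) := by
      rw [PowerSeries.X_dvd_iff]; simp
    obtain ⟨g, hg⟩ := h1
    exact ⟨g, by rw [← hg]; ring⟩
  -- residue field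
  let f0 : k →+* (integralClosure k⟦X⟧ L ⧸ P) :=
    (Ideal.Quotient.mk P).comp ((algebraMap k⟦X⟧ (integralClosure k⟦X⟧ L)).comp (C (R := k)))
  have hf0 : f0.comp (constantCoeff (R := k)) =
      (Ideal.Quotient.mk P).comp (algebraMap k⟦X⟧ (integralClosure k⟦X⟧ L)) := by
    ext f
    obtain ⟨g, hg⟩ := hdec f
    have h1 : Ideal.Quotient.mk P (algebraMap k⟦X⟧ (integralClosure k⟦X⟧ L) f) =
        f0 (constantCoeff f) := by
      conv_lhs => rw [hg]
      rw [map_add, map_add, map_mul, map_mul, Ideal.Quotient.eq_zero_iff_mem.2 hXP, zero_mul,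
        add_zero]
      rfl
    exact h1.symm
  have hf0int : f0.IsIntegral := by
    intro y
    obtain ⟨o, rfl⟩ := Ideal.Quotient.mk_surjective y
    obtain ⟨p, hp, hpo⟩ := hint.isIntegral o
    refine ⟨p.map (constantCoeff (R := k)), hp.map _, ?_⟩
    rw [Polynomial.eval₂_map, hf0, ← Polynomial.hom_eval₂, hpo, map_zero]
  have hfield : Function.Bijective f0 := IsAlgClosed.ringHom_bijective_of_isIntegral f0 hf0int
  have hdvr : IsDiscreteValuationRing (Localization.AtPrime P) :=
    IsLocalization.AtPrime.isDiscreteValuationRing_of_dedekind_domain _ hPb _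
  obtain ⟨Θ, hΘinj, hΘC, hΘP⟩ := dvr_hom (k := k) (R := Localization.AtPrime P) P
    ((algebraMap k⟦X⟧ (integralClosure k⟦X⟧ L)).comp (C (R := k))) hfield.2 hP
  let g : integralClosure k⟦X⟧ L →+* LaurentSeries k := (algebraMap k⟦X⟧ (LaurentSeries k)).comp Θ
  have hginj : Function.Injective g :=
    (IsFractionRing.injective k⟦X⟧ (LaurentSeries k)).comp hΘinj
  let φ : k⟦X⟧ →+* k⟦X⟧ := Θ.comp (algebraMap _ _)
  have hφC : ∀ a : k, φ (C a) = C a := hΘC
  have hφX : constantCoeff (φ X) = 0 := hΘP _ hXP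
  refine ⟨φ, IsFractionRing.lift (K := L) hginj, ?_, hφC, ?_⟩
  · intro f
    obtain ⟨g', hg'⟩ := hdec f
    conv_lhs => rw [hg']
    rw [map_add, map_mul, hφC, map_add, map_mul, hφX, zero_mul, add_zero, constantCoeff_C]
  · intro f
    have h1 : algebraMap (LaurentSeries k) L (algebraMap k⟦X⟧ (LaurentSeries k) f) =
        algebraMap (integralClosure k⟦X⟧ L) L (algebraMap k⟦X⟧ _ f) := rfl
    rw [h1, IsFractionRing.lift_algebraMap]
    rfl

end Pool.Agent.J4H48.AD
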