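import Mathlib

set_option autoImplicit false

/-!
# Power series expansions in a discrete valuation ring with a coefficient field
-/

namespace Pool.Agent.J4H48.AD

open PowerSeries

section

variable {k R : Type*} [Field k] [CommRing R] [IsDomain R] [Algebra k R] {π : R}
  (hπ : π ≠ 0) (hex : ∀ x : R, ∃ (c : k) (y : R), x = algebraMap k R c + π * y)
  (hk : ∀ c : k, π ∣ algebraMap k R c → c = 0)

include hπ hk in
theorem exp_unique {c c' : k} {y y' : R}
    (h : algebraMap k R c + π * y = algebraMap k R c' + π * y') : c = c' ∧ y = y' := by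
  have h1 : c - c' = 0 := hk _ ⟨y' - y, by rw [map_sub]; linear_combination h⟩
  have h2 : c = c' := sub_eq_zero.1 h1
  subst h2
  exact ⟨rfl, mul_left_cancel₀ hπ (add_left_cancel h)⟩

/-- first coefficient -/
noncomputable def co (x : R) : k := (hex x).choose

/-- shift -/
noncomputable def sh (x : R) : R := (hex x).choose_spec.choose

omit [IsDomain R] in
theorem co_add_sh (x : R) : x = algebraMap k R (co hex x) + π * sh hex x :=
  (hex x).choose_spec.choose_spec

include hπ hk in
theorem co_sh_eq {x : R} {c : k} {y : R} (h : x = algebraMap k R c + π * y) :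
    co hex x = c ∧ sh hex x = y :=
  exp_unique hπ hk ((co_add_sh hex x).symm.trans h)

/-- the expansion -/
noncomputable def ex (x : R) : k⟦X⟧ := PowerSeries.mk fun n => co hex ((sh hex)^[n] x)

omit [IsDomain R] in
theorem coeff_zero_ex (x : R) : coeff 0 (ex hex x) = co hex x := by
  simp [ex, coeff_mk]

omit [IsDomain R] in
theorem coeff_succ_ex (n : ℕ) (x : R) : coeff (n + 1) (ex hex x) = coeff n (ex hex (sh hex x)) := by
  simp [ex, coeff_mk, Function.iterate_succ_apply]

omit [IsDomain R] in
theorem ex_eq (x : R) : ex hex x = C (co hex x) + X * ex hex (sh hex x) := by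
  ext n
  cases n with
  | zero => rw [coeff_zero_ex]; simp
  | succ n =>
    rw [coeff_succ_ex, map_add, coeff_succ_X_mul, coeff_C]
    simp

include hπ hk in
theorem ex_smul (a : k) (x : R) : ex hex (algebraMap k R a * x) = C a * ex hex x := by
  ext n
  induction n generalizing x with
  | zero =>
    obtain ⟨h1, -⟩ := co_sh_eq hπ hex hk (x := algebraMap k R a * x) (c := a * co hex x)
      (y := algebraMap k R a * sh hex x) (by
        conv_lhs => rw [co_add_sh hex x]
        rw [map_mul]; ring)
    rw [coeff_zero_ex, h1, coeff_C_mul, coeff_zero_ex]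
  | succ n ih =>
    obtain ⟨-, h1⟩ := co_sh_eq hπ hex hk (x := algebraMap k R a * x) (c := a * co hex x)
      (y := algebraMap k R a * sh hex x) (by
        conv_lhs => rw [co_add_sh hex x]
        rw [map_mul]; ring)
    rw [coeff_succ_ex, h1, ih, coeff_C_mul, coeff_C_mul, coeff_succ_ex]

include hπ hk in
theorem ex_add (x y : R) : ex hex (x + y) = ex hex x + ex hex y := by
  ext n
  induction n generalizing x y with
  | zero =>
    obtain ⟨h1, -⟩ := co_sh_eq hπ hex hk (x := x + y) (c := co hex x + co hex y)
      (y := sh hex x + sh hex y) (by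
        conv_lhs => rw [co_add_sh hex x, co_add_sh hex y]
        rw [map_add]; ring)
    rw [coeff_zero_ex, h1, map_add, coeff_zero_ex, coeff_zero_ex]
  | succ n ih =>
    obtain ⟨-, h1⟩ := co_sh_eq hπ hex hk (x := x + y) (c := co hex x + co hex y)
      (y := sh hex x + sh hex y) (by
        conv_lhs => rw [co_add_sh hex x, co_add_sh hex y]
        rw [map_add]; ring)
    rw [coeff_succ_ex, h1, ih, map_add, map_add, coeff_succ_ex, coeff_succ_ex]

include hπ hk in
theorem ex_mul (x y : R) : ex hex (x * y) = ex hex x * ex hex y := by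
  ext n
  induction n generalizing x y with
  | zero =>
    obtain ⟨h1, -⟩ := co_sh_eq hπ hex hk (x := x * y) (c := co hex x * co hex y)
      (y := algebraMap k R (co hex x) * sh hex y + sh hex x * y) (by
        have h2 := co_add_sh hex y
        have h3 := co_add_sh hex x
        rw [map_mul]
        linear_combination y * h3 + algebraMap k R (co hex x) * h2)
    rw [coeff_zero_ex, h1, coeff_zero_eq_constantCoeff_apply, map_mul,
      ← coeff_zero_eq_constantCoeff_apply, ← coeff_zero_eq_constantCoeff_apply, coeff_zero_ex,
      coeff_zero_ex]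
  | succ n ih =>
    obtain ⟨-, h1⟩ := co_sh_eq hπ hex hk (x := x * y) (c := co hex x * co hex y)
      (y := algebraMap k R (co hex x) * sh hex y + sh hex x * y) (by
        have h2 := co_add_sh hex y
        have h3 := co_add_sh hex x
        rw [map_mul]
        linear_combination y * h3 + algebraMap k R (co hex x) * h2)
    rw [coeff_succ_ex, h1, ex_add hπ hex hk, ex_smul hπ hex hk, map_add, ih, coeff_C_mul]
    conv_rhs => rw [ex_eq hex x, add_mul, map_add, coeff_C_mul, coeff_succ_ex, mul_assoc,
      coeff_succ_X_mul]

include hπ hk in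
theorem ex_algebraMap (a : k) : ex hex (algebraMap k R a) = C a := by
  have h0 : ex hex (0 : R) = 0 := by
    have := ex_smul hπ hex hk (0 : k) (0 : R)
    rw [map_zero, zero_mul, map_zero, zero_mul] at this
    exact this
  obtain ⟨h1, h2⟩ := co_sh_eq hπ hex hk (x := algebraMap k R a) (c := a) (y := 0) (by ring)
  rw [ex_eq, h1, h2, h0, mul_zero, add_zero]

/-- the expansion as a ring homomorphism -/
noncomputable def exHom : R →+* k⟦X⟧ where
  toFun := ex hex
  map_zero' := by
    have := ex_algebraMap hπ hex hk (0 : k)
    rw [map_zero, map_zero] at this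
    exact this
  map_one' := by
    have := ex_algebraMap hπ hex hk (1 : k)
    rw [map_one, map_one] at this
    exact this
  map_add' := ex_add hπ hex hk
  map_mul' := ex_mul hπ hex hk

theorem exHom_algebraMap (a : k) : exHom hπ hex hk (algebraMap k R a) = C a :=
  ex_algebraMap hπ hex hk a

theorem exHom_pi : exHom hπ hex hk π = X := by
  have h0 : ex hex (1 : R) = 1 := (exHom hπ hex hk).map_one
  obtain ⟨h1, h2⟩ := co_sh_eq hπ hex hk (x := π) (c := 0) (y := 1) (by rw [map_zero]; ring)
  show ex hex π = X
  rw [ex_eq, h1, h2, h0, map_zero, zero_add, mul_one]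

end

end Pool.Agent.J4H48.AD
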