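import Pool.Agent.J4H48.AD.Gen

set_option autoImplicit false

/-!
# Finite flat algebras over `k⟦X⟧` have bases all of whose structure constants are units
-/

namespace Pool.Agent.J4H48.AD

open Module TensorProduct PowerSeries

variable {k : Type*} [Field k] [Infinite k]

theorem exists_unit_basis (𝒜 : Type*) [CommRing 𝒜] [Algebra k⟦X⟧ 𝒜] [Module.Finite k⟦X⟧ 𝒜]
    [Module.Flat k⟦X⟧ 𝒜] :
    ∃ b : Basis (Fin (finrank k⟦X⟧ 𝒜)) k⟦X⟧ 𝒜, ∀ i j l, IsUnit (b.repr (b i * b j) l) := by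
  classical
  have : Module.Free k⟦X⟧ 𝒜 := Module.free_of_flat_of_isLocalRing
  let _ : Algebra k⟦X⟧ k := (constantCoeff (R := k)).toAlgebra
  have halg : ∀ f : k⟦X⟧, algebraMap k⟦X⟧ k f = constantCoeff f := fun _ => rfl
  have hfr : finrank k (k ⊗[k⟦X⟧] 𝒜) = finrank k⟦X⟧ 𝒜 := Module.finrank_baseChange
  obtain ⟨e0, he0⟩ := exists_basis (k := k) (k ⊗[k⟦X⟧] 𝒜)
  let e : Basis (Fin (finrank k⟦X⟧ 𝒜)) k (k ⊗[k⟦X⟧] 𝒜) := e0.reindex (finCongr hfr)
  have he : ∀ i j l, e.repr (e i * e j) l ≠ 0 := by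
    intro i j l
    simp only [e, Basis.reindex_apply, Basis.repr_reindex_apply]
    exact he0 _ _ _
  let b0 : Basis (Fin (finrank k⟦X⟧ 𝒜)) k⟦X⟧ 𝒜 := Module.finBasis k⟦X⟧ 𝒜
  let b0' : Basis (Fin (finrank k⟦X⟧ 𝒜)) k (k ⊗[k⟦X⟧] 𝒜) := b0.baseChange k
  let G : Matrix (Fin (finrank k⟦X⟧ 𝒜)) (Fin (finrank k⟦X⟧ 𝒜)) k := b0'.toMatrix e
  have hG : IsUnit G.det := by
    have h1 : G * e.toMatrix b0' = 1 := b0'.toMatrix_mul_toMatrix_flip e
    have h2 : G.det * (e.toMatrix b0').det = 1 := by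
      rw [← Matrix.det_mul, h1, Matrix.det_one]
    exact IsUnit.of_mul_eq_one _ h2
  let G' : Matrix (Fin (finrank k⟦X⟧ 𝒜)) (Fin (finrank k⟦X⟧ 𝒜)) k⟦X⟧ := G.map (C (R := k))
  have hG' : IsUnit G'.det := by
    have : G'.det = C G.det := by
      rw [RingHom.map_det]
      rfl
    rw [this]
    exact hG.map _
  let b : Basis (Fin (finrank k⟦X⟧ 𝒜)) k⟦X⟧ 𝒜 := b0.map (Matrix.toLinearEquiv b0 G' hG')
  have hb : ∀ j, b j = ∑ i, C (G i j) • b0 i := by
    intro j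
    have : b j = Matrix.toLin b0 b0 G' (b0 j) := rfl
    rw [this, Matrix.toLin_self]
    rfl
  have hbe : b.baseChange k = e := by
    apply Basis.eq_of_apply_eq
    intro j
    rw [Basis.baseChange_apply, hb, tmul_sum]
    have : ∀ i, (1 : k) ⊗ₜ[k⟦X⟧] (C (G i j) • b0 i) = G i j • b0' i := by
      intro i
      rw [tmul_smul, ← algebraMap_smul k (C (G i j)) ((1 : k) ⊗ₜ[k⟦X⟧] b0 i), halg,
        Basis.baseChange_apply]
      simp
    simp only [this]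
    have h3 := b0'.sum_repr (e j)
    rw [← h3]
    rfl
  refine ⟨b, fun i j l => ?_⟩
  rw [PowerSeries.isUnit_iff_constantCoeff]
  have h1 : constantCoeff (b.repr (b i * b j) l) = e.repr (e i * e j) l := by
    rw [← hbe, Basis.baseChange_apply, Basis.baseChange_apply, Algebra.TensorProduct.tmul_mul_tmul,
      one_mul, Basis.baseChange_repr_tmul, Algebra.smul_def, halg, mul_one]
  rw [h1]
  exact isUnit_iff_ne_zero.2 (he i j l)

end Pool.Agent.J4H48.AD
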