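import Mathlib

set_option autoImplicit false

/-!
# Finite geometrically reduced algebras over a field are split by a finite separable extension
-/

namespace Pool.Agent.J4H48.AD

open Module TensorProduct Polynomial

theorem minpoly_separable {F B : Type*} [Field F] [CommRing B] [Algebra F B] [Module.Finite F B]
    [Algebra.IsGeometricallyReduced F B] (b : B) : (minpoly F b).Separable := by
  classical
  let Fb := AlgebraicClosure F
  rw [← Polynomial.separable_map (algebraMap F Fb), PerfectField.separable_iff_squarefree]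
  have hint : IsIntegral F b := IsIntegral.of_finite F b
  have hm0 : minpoly F b ≠ 0 := minpoly.ne_zero hint
  have hli : LinearIndependent Fb
      (fun i : Fin (minpoly F b).natDegree => (1 : Fb) ⊗ₜ[F] (b ^ (i : ℕ))) :=
    Module.Flat.linearIndependent_one_tmul (S := Fb) (linearIndependent_pow b)
  rintro p ⟨h, hp⟩
  have hb0 : aeval ((1 : Fb) ⊗ₜ[F] b) ((minpoly F b).map (algebraMap F Fb)) = 0 := by
    have h1 : aeval ((1 : Fb) ⊗ₜ[F] b) ((minpoly F b).map (algebraMap F Fb)) =
        aeval ((1 : Fb) ⊗ₜ[F] b) (minpoly F b) := aeval_map_algebraMap _ _ _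
    have h2 : aeval ((1 : Fb) ⊗ₜ[F] b) (minpoly F b) =
        Algebra.TensorProduct.includeRight (aeval b (minpoly F b)) := by
      rw [← Polynomial.aeval_algHom_apply]
      rfl
    rw [h1, h2, minpoly.aeval, map_zero]
  have hy : aeval ((1 : Fb) ⊗ₜ[F] b) (p * h) = 0 := by
    have hred : IsReduced (Fb ⊗[F] B) := inferInstance
    have h1 : aeval ((1 : Fb) ⊗ₜ[F] b) (p * h) * aeval ((1 : Fb) ⊗ₜ[F] b) (p * h) = 0 := by
      rw [← map_mul]
      have : p * h * (p * h) = (p * p * h) * h := by ring
      rw [this, ← hp, map_mul, hb0, zero_mul]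
    have h2 : (aeval ((1 : Fb) ⊗ₜ[F] b) (p * h)) ^ 2 = 0 := by rw [pow_two]; exact h1
    exact (pow_eq_zero_iff two_ne_zero).1 h2
  by_contra hu
  have hmb0 : (minpoly F b).map (algebraMap F Fb) ≠ 0 := by
    rw [Ne, Polynomial.map_eq_zero]; exact hm0
  have hp0 : p ≠ 0 := by
    rintro rfl
    apply hmb0; rw [hp]; ring
  have hh0 : h ≠ 0 := by
    rintro rfl
    apply hmb0; rw [hp]; ring
  have hdeg : (p * h).natDegree < (minpoly F b).natDegree := by
    have h1 : (minpoly F b).natDegree = p.natDegree + (p * h).natDegree := by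
      rw [← Polynomial.natDegree_map (algebraMap F Fb), hp, mul_assoc,
        Polynomial.natDegree_mul hp0 (mul_ne_zero hp0 hh0)]
    have h2 : 0 < p.natDegree := by
      rw [Nat.pos_iff_ne_zero]
      intro h0
      apply hu
      rw [Polynomial.isUnit_iff_degree_eq_zero, Polynomial.degree_eq_natDegree hp0, h0]
      rfl
    omega
  rw [Polynomial.aeval_eq_sum_range' hdeg] at hy
  rw [Finset.sum_range] at hy
  have hy2 : ∑ i : Fin (minpoly F b).natDegree, (p * h).coeff i • ((1 : Fb) ⊗ₜ[F] (b ^ (i : ℕ)))
      = 0 := by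
    rw [← hy]
    refine Finset.sum_congr rfl fun i _ => ?_
    rw [Algebra.TensorProduct.tmul_pow, one_pow]
  have hc := Fintype.linearIndependent_iff.1 hli _ hy2
  apply mul_ne_zero hp0 hh0
  ext i
  rw [coeff_zero]
  by_cases hi : i < (minpoly F b).natDegree
  · exact hc ⟨i, hi⟩
  · exact coeff_eq_zero_of_natDegree_lt (by omega)

/-- a reduced algebra spanned by elements satisfying split polynomials is split -/
theorem split_of_splits {L R : Type*} [Field L] [CommRing R] [Algebra L R] [Module.Finite L R]
    [IsReduced R] (s : Set R) (hs : Submodule.span L s = ⊤)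
    (hsp : ∀ x ∈ s, ∃ p : L[X], p ≠ 0 ∧ p.Splits ∧ aeval x p = 0) :
    Nonempty (R ≃ₐ[L] (Fin (finrank L R) → L)) := by
  classical
  have hart : IsArtinianRing R := IsArtinianRing.of_finite L R
  have hsurj : ∀ I : MaximalSpectrum R, Function.Bijective (algebraMap L (R ⧸ I.asIdeal)) := by
    intro I
    have hmax := I.isMaximal
    let _ : Field (R ⧸ I.asIdeal) := Ideal.Quotient.field _
    refine ⟨(algebraMap L (R ⧸ I.asIdeal)).injective, ?_⟩
    have h1 : ∀ x ∈ s, Ideal.Quotient.mk I.asIdeal x ∈ (algebraMap L (R ⧸ I.asIdeal)).range := by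
      intro x hx
      obtain ⟨p, hp0, hp, hpx⟩ := hsp x hx
      have h2 : aeval (Ideal.Quotient.mk I.asIdeal x) p = 0 := by
        have : aeval (Ideal.Quotient.mkₐ L I.asIdeal x) p = Ideal.Quotient.mkₐ L I.asIdeal
          (aeval x p) := Polynomial.aeval_algHom_apply _ _ _
        rw [hpx, map_zero] at this
        exact this
      have h3 : (p.map (algebraMap L (R ⧸ I.asIdeal))).IsRoot (Ideal.Quotient.mk I.asIdeal x) := by
        rw [Polynomial.IsRoot.def, ← Polynomial.eval₂_eq_eval_map, ← Polynomial.aeval_def]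
        exact h2
      have h4 : Ideal.Quotient.mk I.asIdeal x ∈ (p.map (algebraMap L (R ⧸ I.asIdeal))).roots := by
        rw [Polynomial.mem_roots']
        exact ⟨by rw [Ne, Polynomial.map_eq_zero]; exact hp0, h3⟩
      rw [hp.roots_map_of_injective (algebraMap L (R ⧸ I.asIdeal)).injective,
        Multiset.mem_map] at h4
      obtain ⟨a, -, ha⟩ := h4
      exact ⟨a, ha⟩
    have h4 : ∀ x : R, Ideal.Quotient.mk I.asIdeal x ∈ (algebraMap L (R ⧸ I.asIdeal)).range := by
      intro x
      have hx : x ∈ Submodule.span L s := by rw [hs]; trivial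
      induction hx using Submodule.span_induction with
      | mem x hx => exact h1 x hx
      | zero => rw [map_zero]; exact zero_mem _
      | add x y _ _ hx hy => rw [map_add]; exact add_mem hx hy
      | smul a x _ hx =>
        rw [Algebra.smul_def, map_mul]
        exact mul_mem ⟨a, rfl⟩ hx
    intro y
    obtain ⟨x, rfl⟩ := Ideal.Quotient.mk_surjective y
    exact h4 x
  have hfin : Finite (MaximalSpectrum R) := inferInstance
  cases nonempty_fintype (MaximalSpectrum R)
  let e1 : R ≃ₐ[L] (∀ I : MaximalSpectrum R, R ⧸ I.asIdeal) :=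
    (IsArtinianRing.equivPi R).restrictScalars L
  let e2 : (∀ I : MaximalSpectrum R, R ⧸ I.asIdeal) ≃ₐ[L] (MaximalSpectrum R → L) :=
    AlgEquiv.piCongrRight fun I =>
      (AlgEquiv.ofBijective (Algebra.ofId L (R ⧸ I.asIdeal)) (hsurj I)).symm
  have hcard : Fintype.card (MaximalSpectrum R) = finrank L R := by
    rw [(e1.trans e2).toLinearEquiv.finrank_eq, Module.finrank_fintype_fun_eq_card]
  let e3 : (MaximalSpectrum R → L) ≃ₐ[L] (Fin (finrank L R) → L) :=
    AlgEquiv.piCongrLeft L (fun _ => L) (Fintype.equivFinOfCardEq hcard)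
  exact ⟨(e1.trans e2).trans e3⟩

/-- a finite geometrically reduced algebra is split by a finite separable extension -/
theorem exists_split (F B : Type*) [Field F] [CommRing B] [Algebra F B] [Module.Finite F B]
    [Algebra.IsGeometricallyReduced F B] :
    ∃ L : IntermediateField F (AlgebraicClosure F), FiniteDimensional F L ∧
      Algebra.IsSeparable F L ∧
      Nonempty ((L ⊗[F] B) ≃ₐ[L] (Fin (finrank F B) → L)) := by
  classical
  let b := Module.finBasis F B
  let S : Set (AlgebraicClosure F) := ⋃ i, (minpoly F (b i)).rootSet (AlgebraicClosure F)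
  have hSfin : S.Finite := Set.finite_iUnion fun i => Polynomial.rootSet_finite _ _
  let L := IntermediateField.adjoin F S
  have hfd : FiniteDimensional F L := by
    have := hSfin.to_subtype
    exact IntermediateField.finiteDimensional_adjoin fun x _ =>
      (Algebra.IsAlgebraic.isAlgebraic x).isIntegral
  have hsep : Algebra.IsSeparable F L := by
    rw [IntermediateField.isSeparable_adjoin_iff_isSeparable]
    intro x hx
    obtain ⟨i, hi⟩ := Set.mem_iUnion.1 hx
    rw [Polynomial.mem_rootSet] at hi
    exact (minpoly_separable (F := F) (b i)).of_dvd (minpoly.dvd F x hi.2)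
  refine ⟨L, hfd, hsep, ?_⟩
  have hfr : finrank L (L ⊗[F] B) = finrank F B := Module.finrank_baseChange
  rw [← hfr]
  refine split_of_splits (L := L) (R := L ⊗[F] B) (Set.range fun i => (1 : L) ⊗ₜ[F] b i) ?_ ?_
  · have := (b.baseChange L).span_eq
    rw [← this]
    congr 1
    ext x
    simp [Basis.baseChange_apply]
  · rintro x ⟨i, rfl⟩
    refine ⟨(minpoly F (b i)).map (algebraMap F L), ?_, ?_, ?_⟩
    · rw [Ne, Polynomial.map_eq_zero]
      exact minpoly.ne_zero (IsIntegral.of_finite F (b i))
    · refine Polynomial.Splits.of_splits_map_of_injective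
        (i := algebraMap L (AlgebraicClosure F)) (algebraMap L (AlgebraicClosure F)).injective ?_ ?_
      · rw [Polynomial.map_map]
        exact IsAlgClosed.splits _
      · intro a ha
        rw [Polynomial.map_map, Polynomial.mem_roots'] at ha
        have : a ∈ S := by
          refine Set.mem_iUnion.2 ⟨i, ?_⟩
          rw [Polynomial.mem_rootSet]
          refine ⟨minpoly.ne_zero (IsIntegral.of_finite F (b i)), ?_⟩
          rw [Polynomial.aeval_def, Polynomial.eval₂_eq_eval_map]
          exact ha.2
        exact ⟨⟨a, IntermediateField.subset_adjoin F S this⟩, rfl⟩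
    · rw [aeval_map_algebraMap]
      have h2 : aeval ((1 : L) ⊗ₜ[F] b i) (minpoly F (b i)) =
          Algebra.TensorProduct.includeRight (aeval (b i) (minpoly F (b i))) := by
        rw [← Polynomial.aeval_algHom_apply]
        rfl
      rw [h2, minpoly.aeval, map_zero]

end Pool.Agent.J4H48.AD
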