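import Pool.Agent.J4H48.AD.Stm
import Pool.Agent.J4H48.AD.Lift
import Pool.Agent.J4H48.AD.Split
import Pool.Agent.J4H48.AD.Dom
import Pool.Agent.J4H48.AD.BC

set_option autoImplicit false

/-!
# Every smoothable algebra has a completely split smoothing of approximation degree `0`
-/

namespace Pool.Agent.J4H48.AD

open Module TensorProduct PowerSeries

universe u

section

variable {k : Type u} [Field k]

theorem decomp (f : k⟦X⟧) : ∃ g : k⟦X⟧, f = C (constantCoeff f) + X * g := by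
  have h1 : (X : k⟦X⟧) ∣ f - C (constantCoeff f) := by
    rw [PowerSeries.X_dvd_iff]; simp
  obtain ⟨g, hg⟩ := h1
  exact ⟨g, by rw [← hg]; ring⟩

/-- the projection to the special fibre -/
theorem proj_of_isDeformation {A 𝒜 : Type u} [CommRing A] [Algebra k A] [CommRing 𝒜]
    [Algebra k⟦X⟧ 𝒜] (h : IsDeformation k A 𝒜) :
    ∃ q : 𝒜 →+* A, Function.Surjective q ∧
      (∀ a, q a = 0 ↔ ∃ a', a = algebraMap k⟦X⟧ 𝒜 X * a') ∧
      ∀ f, q (algebraMap k⟦X⟧ 𝒜 f) = algebraMap k A (constantCoeff f) := by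
  obtain ⟨-, -, e, he⟩ := h
  refine ⟨e.toRingHom.comp (Ideal.Quotient.mk _), ?_, ?_, ?_⟩
  · exact e.surjective.comp Ideal.Quotient.mk_surjective
  · intro a
    have h1 : (e.toRingHom.comp (Ideal.Quotient.mk _)) a = 0 ↔
        Ideal.Quotient.mk (Ideal.span {algebraMap k⟦X⟧ 𝒜 X}) a = 0 := by
      rw [RingHom.comp_apply]
      exact e.map_eq_zero_iff
    rw [h1, Ideal.Quotient.eq_zero_iff_mem, Ideal.mem_span_singleton]
    rfl
  · intro f
    obtain ⟨g, hg⟩ := decomp f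
    conv_lhs => rw [hg]
    rw [map_add, map_mul, map_add, RingHom.comp_apply, RingHom.comp_apply]
    have h1 : Ideal.Quotient.mk (Ideal.span {algebraMap k⟦X⟧ 𝒜 X})
        (algebraMap k⟦X⟧ 𝒜 X * algebraMap k⟦X⟧ 𝒜 g) = 0 := by
      rw [Ideal.Quotient.eq_zero_iff_mem, Ideal.mem_span_singleton]
      exact ⟨_, rfl⟩
    rw [h1, map_zero, add_zero]
    exact he _

theorem isDeformation_of_proj {A 𝒜 : Type u} [CommRing A] [Algebra k A] [CommRing 𝒜]
    [Algebra k⟦X⟧ 𝒜] (h1 : Module.Finite k⟦X⟧ 𝒜) (h2 : Module.Flat k⟦X⟧ 𝒜) (q : 𝒜 →+* A)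
    (hq : Function.Surjective q) (hk : ∀ a, q a = 0 ↔ ∃ a', a = algebraMap k⟦X⟧ 𝒜 X * a')
    (hc : ∀ c : k, q (algebraMap k⟦X⟧ 𝒜 (C c)) = algebraMap k A c) : IsDeformation k A 𝒜 := by
  refine ⟨h1, h2, ?_⟩
  have hker : Ideal.span {algebraMap k⟦X⟧ 𝒜 X} = RingHom.ker q := by
    ext a
    rw [Ideal.mem_span_singleton, RingHom.mem_ker, hk]
    rfl
  refine ⟨(Ideal.quotEquivOfEq hker).trans (RingHom.quotientKerEquivOfSurjective hq), ?_⟩
  intro a
  exact hc a

theorem finrank_eq {A 𝒜 : Type u} [CommRing A] [Algebra k A] [CommRing 𝒜]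
    [Algebra k⟦X⟧ 𝒜] (h : IsDeformation k A 𝒜) : finrank k⟦X⟧ 𝒜 = finrank k A := by
  classical
  have h1 := h.1
  have h2 := h.2.1
  have : Module.Free k⟦X⟧ 𝒜 := Module.free_of_flat_of_isLocalRing
  obtain ⟨q, hq, hk, hc⟩ := proj_of_isDeformation h
  let b : Basis (Fin (finrank k⟦X⟧ 𝒜)) k⟦X⟧ 𝒜 := Module.finBasis k⟦X⟧ 𝒜
  have hqs : ∀ (f : k⟦X⟧) (a : 𝒜), q (f • a) = constantCoeff f • q a := by
    intro f a
    rw [Algebra.smul_def, map_mul, hc, Algebra.smul_def]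
  have hli : LinearIndependent k fun i => q (b i) := by
    rw [Fintype.linearIndependent_iff]
    intro c hc0 i
    have h3 : q (∑ i, C (c i) • b i) = 0 := by
      rw [map_sum, ← hc0]
      refine Finset.sum_congr rfl fun i _ => ?_
      rw [hqs, constantCoeff_C]
    obtain ⟨a', ha'⟩ := (hk _).1 h3
    have h4 : b.repr (∑ i, C (c i) • b i) i = b.repr (algebraMap k⟦X⟧ 𝒜 X * a') i := by rw [ha']
    rw [b.repr_sum_self, ← Algebra.smul_def, map_smul, Finsupp.smul_apply, smul_eq_mul] at h4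
    have h5 := congrArg (constantCoeff (R := k)) h4
    rw [constantCoeff_C, map_mul, constantCoeff_X, zero_mul] at h5
    exact h5
  have hsp : ⊤ ≤ Submodule.span k (Set.range fun i => q (b i)) := by
    intro x _
    obtain ⟨a, rfl⟩ := hq x
    rw [← b.sum_repr a, map_sum]
    refine Submodule.sum_mem _ fun i _ => ?_
    rw [hqs]
    exact Submodule.smul_mem _ _ (Submodule.subset_span ⟨i, rfl⟩)
  rw [Module.finrank_eq_card_basis (Basis.mk hli hsp), Fintype.card_fin]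

/-- a split algebra is geometrically reduced -/
theorem geometricallyReduced_of_split {K B : Type u} [Field K] [CommRing B] [Algebra K B] {n : ℕ}
    (e : B ≃ₐ[K] (Fin n → K)) : Algebra.IsGeometricallyReduced K B := by
  rw [Algebra.isGeometricallyReduced_field_iff]
  let e1 : (AlgebraicClosure K ⊗[K] B) ≃ₐ[AlgebraicClosure K]
      (AlgebraicClosure K ⊗[K] (Fin n → K)) :=
    Algebra.TensorProduct.congr (AlgEquiv.refl (R := AlgebraicClosure K)
      (A₁ := AlgebraicClosure K)) e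
  let e2 : (AlgebraicClosure K ⊗[K] (Fin n → K)) ≃ₐ[AlgebraicClosure K]
      (Fin n → AlgebraicClosure K) :=
    Algebra.TensorProduct.piScalarRight K (AlgebraicClosure K) (AlgebraicClosure K) (Fin n)
  exact isReduced_of_injective (e1.trans e2) (e1.trans e2).injective

end

variable (k : Type u) [Field k]

theorem approxDegree_zero [Infinite k] (𝒜 : Type u) [CommRing 𝒜] [Algebra k⟦X⟧ 𝒜]
    [Module.Finite k⟦X⟧ 𝒜] [Module.Flat k⟦X⟧ 𝒜] : ApproxDegreeLE k 𝒜 0 := by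
  obtain ⟨b, hb⟩ := exists_unit_basis (k := k) 𝒜
  refine ⟨_, b, fun i j l _ => ?_⟩
  have h1 := hb i j l
  rw [PowerSeries.isUnit_iff_constantCoeff] at h1
  rw [PowerSeries.order_zero_of_unit (hb i j l)]
  simp

theorem exists_completely_split [IsAlgClosed k] (A : Type u) [CommRing A] [Algebra k A]
    (h : Smoothable k A) :
    ∃ (ℬ : Type u) (_ : CommRing ℬ) (_ : Algebra k⟦X⟧ ℬ),
      IsAbstractSmoothing k A ℬ ∧ IsCompletelySplit k (finrank k A) ℬ := by
  obtain ⟨𝒜, _, _, hdef, hgr⟩ := h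
  have h1 := hdef.1
  have h2 := hdef.2.1
  have : Module.Free k⟦X⟧ 𝒜 := Module.free_of_flat_of_isLocalRing
  obtain ⟨L, hfd, hsep, ⟨e⟩⟩ := exists_split (LaurentSeries k) (LaurentSeries k ⊗[k⟦X⟧] 𝒜)
  have hfr : finrank (LaurentSeries k) (LaurentSeries k ⊗[k⟦X⟧] 𝒜) = finrank k A := by
    rw [Module.finrank_baseChange, finrank_eq hdef]
  rw [hfr] at e
  obtain ⟨φ, ψ, hφ0, hφC, hφψ⟩ := exists_hom k L
  obtain ⟨ℬ, _, _, ι, hfin, hflat, hι, hspan, hlift, hgen⟩ := bc_all φ ψ hφψ 𝒜 (finrank k A) e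
  obtain ⟨q, hq, hk, hc⟩ := proj_of_isDeformation hdef
  obtain ⟨r, hr1, hr2⟩ := hlift A ((algebraMap k A).comp (constantCoeff (R := k))) q (by
    intro p
    rw [hc, RingHom.comp_apply, hφ0])
  have hX : ∃ g, φ X = X * g := by
    have : (X : k⟦X⟧) ∣ φ X := by
      rw [PowerSeries.X_dvd_iff, hφ0, constantCoeff_X]
    exact this
  obtain ⟨gX, hgX⟩ := hX
  have hdecz : ∀ z : ℬ, ∃ (a : 𝒜) (z' : ℬ), z = ι a + algebraMap k⟦X⟧ ℬ X * z' := by
    intro z
    have hz := hspan z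
    induction hz using Submodule.span_induction with
    | mem x hx =>
      obtain ⟨a, rfl⟩ := hx
      exact ⟨a, 0, by ring⟩
    | zero => exact ⟨0, 0, by rw [map_zero]; ring⟩
    | add x y _ _ hx hy =>
      obtain ⟨a, z', rfl⟩ := hx
      obtain ⟨a2, z2, rfl⟩ := hy
      exact ⟨a + a2, z' + z2, by rw [map_add]; ring⟩
    | smul f x _ hx =>
      obtain ⟨a, z', rfl⟩ := hx
      obtain ⟨g, hg⟩ := decomp f
      refine ⟨algebraMap k⟦X⟧ 𝒜 (C (constantCoeff f)) * a,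
        algebraMap k⟦X⟧ ℬ g * ι a + algebraMap k⟦X⟧ ℬ f * z', ?_⟩
      rw [map_mul, hι, hφC, Algebra.smul_def]
      conv_lhs => rw [hg]
      rw [map_add, map_mul]
      have h3 : algebraMap k⟦X⟧ ℬ f = algebraMap k⟦X⟧ ℬ (C (constantCoeff f)) +
          algebraMap k⟦X⟧ ℬ X * algebraMap k⟦X⟧ ℬ g := by
        conv_lhs => rw [hg]
        rw [map_add, map_mul]
      rw [h3]
      ring
  have hrX : r (algebraMap k⟦X⟧ ℬ X) = 0 := by
    rw [hr1, RingHom.comp_apply, constantCoeff_X, map_zero]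
  have hdefB : IsDeformation k A ℬ := by
    refine isDeformation_of_proj hfin hflat r ?_ ?_ ?_
    · intro x
      obtain ⟨a, rfl⟩ := hq x
      exact ⟨ι a, hr2 a⟩
    · intro z
      constructor
      · intro hz
        obtain ⟨a, z', rfl⟩ := hdecz z
        rw [map_add, map_mul, hrX, zero_mul, add_zero, hr2] at hz
        obtain ⟨a', rfl⟩ := (hk a).1 hz
        refine ⟨algebraMap k⟦X⟧ ℬ gX * ι a' + z', ?_⟩
        rw [map_mul, hι, hgX, map_mul]
        ring
      · rintro ⟨z', rfl⟩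
        rw [map_mul, hrX, zero_mul]
    · intro c
      rw [hr1, RingHom.comp_apply, constantCoeff_C]
  obtain ⟨egen⟩ := hgen
  exact ⟨ℬ, _, _, ⟨hdefB, geometricallyReduced_of_split egen⟩, ⟨egen⟩⟩

end Pool.Agent.J4H48.AD
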