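import Mathlib

set_option autoImplicit false

/-!
# Bases of finite-dimensional algebras with all structure constants nonzero
-/

namespace Pool.Agent.J4H48.AD

open Module

variable {k : Type*} [Field k] [Infinite k]

/-- there are `β` with sum `1` avoiding `0, 1, 2`, unless there is only one index -/
theorem exists_beta (n : ℕ) : ∃ β : Fin (n + 2) → k, (∑ i, β i = 1) ∧
    ∀ i, β i ≠ 0 ∧ β i ≠ 1 ∧ β i ≠ 2 := by
  classical
  induction n with
  | zero =>
    have h : ∃ x : k, x ∉ ({0, 1, 2, -1} : Finset k) := Infinite.exists_notMem_finset _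
    obtain ⟨x, hx⟩ := h
    simp only [Finset.mem_insert, Finset.mem_singleton, not_or] at hx
    obtain ⟨h0, h1, h2, h3⟩ := hx
    refine ⟨![x, 1 - x], by simp, ?_⟩
    intro i
    fin_cases i
    · exact ⟨h0, h1, h2⟩
    · refine ⟨?_, ?_, ?_⟩
      · intro h; simp at h; exact h1 (sub_eq_zero.1 h).symm
      · intro h; simp at h; exact h0 h
      · intro h; simp at h; apply h3; linear_combination -h
  | succ n ih =>
    obtain ⟨β, hs, hβ⟩ := ih
    -- split the first entry
    have h : ∃ x : k, x ∉ ({0, 1, 2, β 0, β 0 - 1, β 0 - 2} : Finset k) :=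
      Infinite.exists_notMem_finset _
    obtain ⟨x, hx⟩ := h
    simp only [Finset.mem_insert, Finset.mem_singleton, not_or] at hx
    obtain ⟨h0, h1, h2, h3, h4, h5⟩ := hx
    refine ⟨Fin.cons x (fun i => β i - if i = 0 then x else 0), ?_, ?_⟩
    · rw [Fin.sum_univ_succ]
      simp only [Fin.cons_zero, Fin.cons_succ, Finset.sum_sub_distrib, hs]
      simp
    · intro i
      refine Fin.cases ?_ (fun j => ?_) i
      · exact ⟨h0, h1, h2⟩
      · simp only [Fin.cons_succ]
        by_cases hj : j = 0
        · subst hj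
          simp only [if_true]
          refine ⟨?_, ?_, ?_⟩
          · intro h; exact h3 (sub_eq_zero.1 h).symm
          · intro h; apply h4; linear_combination -h
          · intro h; apply h5; linear_combination -h
        · simp only [hj, if_false, sub_zero]
          exact hβ j

/-- finitely many polynomials of degree at most two with nonzero constant term have a common
nonzero non-root -/
theorem exists_eps {ι : Type*} [Finite ι] (c0 c1 c2 : ι → k) (h : ∀ i, c0 i ≠ 0) :
    ∃ ε : k, ε ≠ 0 ∧ ∀ i, c0 i + ε * c1 i + ε ^ 2 * c2 i ≠ 0 := by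
  classical
  cases nonempty_fintype ι
  let P : ι → Polynomial k := fun i => Polynomial.C (c0 i) + Polynomial.C (c1 i) * Polynomial.X
    + Polynomial.C (c2 i) * Polynomial.X ^ 2
  have hP : ∀ i, P i ≠ 0 := by
    intro i h0
    apply h i
    have := congrArg (fun p => Polynomial.eval 0 p) h0
    simpa [P] using this
  let Q : Polynomial k := Polynomial.X * ∏ i, P i
  have hQ : Q ≠ 0 := mul_ne_zero Polynomial.X_ne_zero (Finset.prod_ne_zero_iff.2 fun i _ => hP i)
  obtain ⟨ε, hε⟩ : ∃ ε, Polynomial.eval ε Q ≠ 0 := by
    by_contra hcon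
    push Not at hcon
    exact hQ (Polynomial.funext (fun r => by rw [hcon r]; simp))
  refine ⟨ε, ?_, ?_⟩
  · rintro rfl
    apply hε
    simp [Q]
  · intro i h0
    apply hε
    have : Polynomial.eval ε (P i) = 0 := by
      simp only [P, Polynomial.eval_add, Polynomial.eval_mul, Polynomial.eval_C, Polynomial.eval_X,
        Polynomial.eval_pow]
      linear_combination h0
    simp only [Q, Polynomial.eval_mul, Polynomial.eval_prod]
    rw [Finset.prod_eq_zero (Finset.mem_univ i) this, mul_zero]

/-- the case of dimension at least two -/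
theorem exists_basis_two (n : ℕ) (A : Type*) [CommRing A] [Algebra k A] [Module.Finite k A]
    (hn : finrank k A = n + 2) :
    ∃ b : Basis (Fin (n + 2)) k A, ∀ i j l, b.repr (b i * b j) l ≠ 0 := by
  classical
  have hnt : Nontrivial A := by
    apply Module.nontrivial_of_finrank_pos (R := k)
    omega
  obtain ⟨β, hβs, hβ⟩ := exists_beta (k := k) n
  -- a functional with `φ 1 = 1`
  obtain ⟨φ, hφ⟩ : ∃ φ : Module.Dual k A, φ 1 = 1 := Projective.exists_dual_eq_one k one_ne_zero
  have hφ0 : φ ≠ 0 := by
    intro h
    rw [h] at hφ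
    simp at hφ
  have hker : finrank k (LinearMap.ker φ) = n + 1 := by
    have := Module.Dual.finrank_ker_add_one_of_ne_zero hφ0
    omega
  let w : Basis (Fin (n + 1)) k (LinearMap.ker φ) := Module.finBasisOfFinrankEq k _ hker
  -- the projection to the kernel
  let pr : A →ₗ[k] LinearMap.ker φ := LinearMap.codRestrict (LinearMap.ker φ)
    (LinearMap.id - (LinearMap.toSpanSingleton k A 1).comp φ) (by
      intro x
      simp [LinearMap.mem_ker, hφ])
  have hpr : ∀ x : A, x = φ x • (1 : A) + (pr x : A) := by
    intro x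
    simp [pr]
  -- the vectors `v`
  let v : Fin (n + 2) → A := Fin.cons (-((β 0)⁻¹ • ∑ i : Fin (n + 1), β i.succ • (w i : A)))
    (fun i => (w i : A))
  have hv : ∑ i, β i • v i = 0 := by
    rw [Fin.sum_univ_succ]
    simp only [v, Fin.cons_zero, Fin.cons_succ, smul_neg, smul_smul]
    rw [mul_inv_cancel₀ (hβ 0).1, one_smul, neg_add_cancel]
  let h : A →ₗ[k] (Fin (n + 2) → k) := LinearMap.pi (Fin.cons 0
    (fun i => (Finsupp.lapply i : (Fin (n + 1) →₀ k) →ₗ[k] k).comp
      (w.repr.toLinearMap.comp pr)))
  have hh : ∀ x : A, (pr x : A) = ∑ i, h x i • v i := by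
    intro x
    rw [Fin.sum_univ_succ]
    simp only [h, LinearMap.pi_apply, Fin.cons_zero, Fin.cons_succ, LinearMap.zero_apply, zero_smul,
      zero_add, v, LinearMap.comp_apply, Finsupp.lapply_apply]
    have := w.sum_repr (pr x)
    have h2 := congrArg (LinearMap.ker φ).subtype this
    rw [map_sum] at h2
    simp only [map_smul, Submodule.subtype_apply] at h2
    exact h2.symm
  -- the quadratic polynomials
  obtain ⟨ε, hε0, hε⟩ := exists_eps (ι := Fin (n + 2) × Fin (n + 2) × Fin (n + 2))
    (fun t => (if t.1 = t.2.2 then (1 : k) else 0) + (if t.2.1 = t.2.2 then 1 else 0) - β t.2.2)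
    (fun t => h (v t.1 * v t.2.1) t.2.2 - β t.2.2 * ∑ m, h (v t.1 * v t.2.1) m)
    (fun t => φ (v t.1 * v t.2.1) * β t.2.2) (by
      rintro ⟨i, j, l⟩
      dsimp only
      obtain ⟨b0, b1, b2⟩ := hβ l
      split_ifs
      · intro h0; apply b2; linear_combination -h0
      · intro h0; apply b1; linear_combination -h0
      · intro h0; apply b1; linear_combination -h0
      · intro h0; apply b0; linear_combination -h0)
  let e : Fin (n + 2) → A := fun i => 1 + ε • v i
  let r : A →ₗ[k] (Fin (n + 2) → k) :=
    { toFun := fun x l => φ x * β l + ε⁻¹ * (h x l - β l * ∑ m, h x m)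
      map_add' := by
        intro x y
        funext l
        simp only [map_add, Pi.add_apply, Finset.sum_add_distrib]
        ring
      map_smul' := by
        intro c x
        funext l
        simp only [map_smul, Pi.smul_apply, smul_eq_mul, RingHom.id_apply, ← Finset.mul_sum]
        ring }
  have hr : ∀ x l, r x l = φ x * β l + ε⁻¹ * (h x l - β l * ∑ m, h x m) := fun _ _ => rfl
  have hone : ∑ l, β l • e l = 1 := by
    simp only [e, smul_add, Finset.sum_add_distrib, ← Finset.sum_smul, hβs, one_smul]
    have : ∑ x, β x • ε • v x = ε • ∑ x, β x • v x := by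
      rw [Finset.smul_sum]
      exact Finset.sum_congr rfl fun x _ => smul_comm _ _ _
    rw [this, hv, smul_zero, add_zero]
  have hve : ∀ l, v l = ε⁻¹ • (e l - 1) := by
    intro l
    simp only [e, add_sub_cancel_left, smul_smul, inv_mul_cancel₀ hε0, one_smul]
  have hsum : ∀ x, ∑ l, r x l • e l = x := by
    intro x
    have h1 : ∑ l, r x l • e l = φ x • ∑ l, β l • e l + ε⁻¹ • (∑ l, h x l • e l -
        (∑ m, h x m) • ∑ l, β l • e l) := by
      simp only [hr, add_smul, Finset.sum_add_distrib, Finset.smul_sum, smul_smul, smul_sub,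
        mul_sub, sub_smul, Finset.sum_sub_distrib]
      congr 2
      refine Finset.sum_congr rfl fun l _ => ?_
      congr 1
      ring
    have h2 : ε⁻¹ • (∑ l, h x l • e l - (∑ m, h x m) • (1 : A)) = ∑ l, h x l • v l := by
      rw [Finset.sum_smul, ← Finset.sum_sub_distrib, Finset.smul_sum]
      refine Finset.sum_congr rfl fun l _ => ?_
      rw [hve l, ← smul_sub, smul_comm]
    rw [h1, hone, h2, ← hh x]
    exact (hpr x).symm
  have hspan : ⊤ ≤ Submodule.span k (Set.range e) := by
    intro x _
    rw [← hsum x]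
    exact Submodule.sum_mem _ fun l _ => Submodule.smul_mem _ _ (Submodule.subset_span ⟨l, rfl⟩)
  let b : Basis (Fin (n + 2)) k A := basisOfTopLeSpanOfCardEqFinrank e hspan (by simp [hn])
  have hb : ∀ i, b i = e i := fun i => by
    simp [b]
  have hrepr : ∀ x l, b.repr x l = r x l := by
    intro x l
    have h1 : x = ∑ l, r x l • b l := by
      simp only [hb]
      exact (hsum x).symm
    conv_lhs => rw [h1]
    rw [b.repr_sum_self]
  have hre : ∀ i l, r (e i) l = if i = l then 1 else 0 := by
    intro i l
    rw [← hrepr, ← hb i, b.repr_self, Finsupp.single_apply]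
  have hr1 : ∀ l, r 1 l = β l := by
    intro l
    rw [← hrepr, ← hone]
    simp only [← hb]
    rw [b.repr_sum_self]
  refine ⟨b, fun i j l => ?_⟩
  have hmul : b i * b j = e i + e j - 1 + ε ^ 2 • (v i * v j) := by
    rw [hb, hb]
    have h2 : ε • ε • (v i * v j) = ε ^ 2 • (v i * v j) := by rw [smul_smul, pow_two]
    simp only [e, mul_add, add_mul, one_mul, mul_one, smul_mul_assoc, mul_smul_comm, smul_add]
    rw [h2]
    abel
  rw [hrepr, hmul, map_add, map_sub, map_add, map_smul]
  simp only [Pi.add_apply, Pi.sub_apply, Pi.smul_apply, smul_eq_mul, hre, hr1]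
  rw [hr]
  have := hε (i, j, l)
  dsimp only at this
  intro h0
  apply this
  have hee : ε ^ 2 * (φ (v i * v j) * β l + ε⁻¹ * (h (v i * v j) l - β l * ∑ m, h (v i * v j) m))
      = ε * (h (v i * v j) l - β l * ∑ m, h (v i * v j) m) + ε ^ 2 * (φ (v i * v j) * β l) := by
    field_simp
    ring
  rw [hee] at h0
  linear_combination h0

/-- a finite-dimensional commutative algebra over an infinite field has a basis all of whose
structure constants are nonzero -/
theorem exists_basis (A : Type*) [CommRing A] [Algebra k A] [Module.Finite k A] :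
    ∃ b : Basis (Fin (finrank k A)) k A, ∀ i j l, b.repr (b i * b j) l ≠ 0 := by
  classical
  rcases h : finrank k A with _ | _ | n
  · exact ⟨Module.finBasisOfFinrankEq k A h, fun i => i.elim0⟩
  · have hnt : Nontrivial A := by
      apply Module.nontrivial_of_finrank_pos (R := k)
      omega
    have hs := (finrank_eq_one_iff_of_nonzero' (1 : A) one_ne_zero).1 h
    let b : Basis (Fin 1) k A := basisOfTopLeSpanOfCardEqFinrank (fun _ : Fin 1 => (1 : A)) (by
      intro x _
      obtain ⟨c, rfl⟩ := hs x
      exact Submodule.smul_mem _ _ (Submodule.subset_span ⟨0, rfl⟩)) (by simp [h])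
    have hb : ∀ i, b i = 1 := fun i => by simp [b]
    refine ⟨b, fun i j l => ?_⟩
    have h1 : b i * b j = b l := by rw [hb, hb, hb, one_mul]
    rw [h1, b.repr_self]
    simp
  · exact exists_basis_two n A h

end Pool.Agent.J4H48.AD
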