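import Mathlib

set_option autoImplicit false

/-!
# Abstract smoothings of finite algebras: definitions
-/

namespace Pool.Agent.J4H48.AD

open Module TensorProduct PowerSeries

universe u

variable (k : Type u) [Field k]

/-- `𝒜` is a finite flat `k⟦X⟧`-algebra whose special fibre `𝒜 / X𝒜` is isomorphic to the
`k`-algebra `A`. -/
def IsDeformation (A 𝒜 : Type u) [CommRing A] [Algebra k A] [CommRing 𝒜] [Algebra k⟦X⟧ 𝒜] : Prop :=
  Module.Finite k⟦X⟧ 𝒜 ∧ Module.Flat k⟦X⟧ 𝒜 ∧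
    ∃ e : (𝒜 ⧸ Ideal.span {algebraMap k⟦X⟧ 𝒜 X}) ≃+* A,
      ∀ a : k, e (Ideal.Quotient.mk _ (algebraMap k⟦X⟧ 𝒜 (C a))) = algebraMap k A a

/-- `𝒜` is an abstract smoothing of `A`: a finite flat `k⟦X⟧`-algebra with special fibre `A` and
geometrically reduced generic fibre. -/
def IsAbstractSmoothing (A 𝒜 : Type u) [CommRing A] [Algebra k A] [CommRing 𝒜]
    [Algebra k⟦X⟧ 𝒜] : Prop :=
  IsDeformation k A 𝒜 ∧
    Algebra.IsGeometricallyReduced (LaurentSeries k) (LaurentSeries k ⊗[k⟦X⟧] 𝒜)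

/-- `Spec A` is smoothable. -/
def Smoothable (A : Type u) [CommRing A] [Algebra k A] : Prop :=
  ∃ (𝒜 : Type u) (_ : CommRing 𝒜) (_ : Algebra k⟦X⟧ 𝒜), IsAbstractSmoothing k A 𝒜

/-- The generic fibre of `𝒜` is a product of `d` copies of `k((X))`. -/
def IsCompletelySplit (d : ℕ) (𝒜 : Type u) [CommRing 𝒜] [Algebra k⟦X⟧ 𝒜] : Prop :=
  Nonempty ((LaurentSeries k ⊗[k⟦X⟧] 𝒜) ≃ₐ[LaurentSeries k] (Fin d → LaurentSeries k))

/-- The approximation degree of `𝒜` is at most `N`: some `k⟦X⟧`-basis of `𝒜` has all its nonzero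
structure constants of valuation at most `N`. -/
def ApproxDegreeLE (𝒜 : Type u) [CommRing 𝒜] [Algebra k⟦X⟧ 𝒜] (N : ℕ) : Prop :=
  ∃ (n : ℕ) (b : Basis (Fin n) k⟦X⟧ 𝒜), ∀ i j l,
    b.repr (b i * b j) l ≠ 0 → (b.repr (b i * b j) l).order ≤ (N : ℕ∞)

end Pool.Agent.J4H48.AD
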